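import Pool.Agent.helper17.RX.Spec

/-!
Row SMX of the project RX (architect helper17): a sum of `n u (A + log (1 / n u)) ^ i`.
-/

set_option autoImplicit false

namespace EN

open Finset Real

private lemma SMX_term (t A l c : ℝ) (i : ℕ) (ht : 0 < t) (hc : 0 < c)
    (hcl : log c ≤ l) (hl : 0 < l) (hA : (i : ℝ) ≤ A) (ht1 : t ≤ 1) :
    t * (A + log (1 / t)) ^ i ≤ (A + 2 * l) ^ i * t + (A + 2 * l) ^ i * (1 / c ^ 2) := by
  have hA0 : 0 ≤ A := le_trans (Nat.cast_nonneg i) hA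
  have hB : 0 < A + 2 * l := by linarith
  have hBi : 0 < (A + 2 * l) ^ i := pow_pos hB i
  have hs0 : 0 ≤ log (1 / t) := by
    apply Real.log_nonneg
    rw [le_div_iff₀ ht]
    linarith
  have hte : t * exp (log (1 / t)) = 1 := by
    rw [Real.exp_log (by positivity)]
    field_simp
  have hc2 : 0 < 1 / c ^ 2 := by positivity
  obtain ⟨σ, hσ⟩ : ∃ σ : ℝ, σ = log (1 / t) := ⟨_, rfl⟩
  rw [← hσ] at hs0 hte ⊢
  by_cases hcase : σ ≤ 2 * l
  · have h1 : (A + σ) ^ i ≤ (A + 2 * l) ^ i :=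
      pow_le_pow_left₀ (by linarith) (by linarith) i
    have h2 : t * (A + σ) ^ i ≤ t * (A + 2 * l) ^ i := mul_le_mul_of_nonneg_left h1 ht.le
    have h3 : 0 < (A + 2 * l) ^ i * (1 / c ^ 2) := mul_pos hBi hc2
    linarith [mul_comm t ((A + 2 * l) ^ i)]
  · have hgt : 2 * l < σ := not_le.mp hcase
    have h1 : A + σ ≤ (A + 2 * l) * exp ((σ - 2 * l) / (A + 2 * l)) := by
      have h := Real.add_one_le_exp ((σ - 2 * l) / (A + 2 * l))
      have h' := mul_le_mul_of_nonneg_left h hB.le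
      have h'' : (A + 2 * l) * ((σ - 2 * l) / (A + 2 * l) + 1) = A + σ := by
        field_simp
        ring
      linarith
    have h2 : (A + σ) ^ i ≤ (A + 2 * l) ^ i * exp (σ - 2 * l) := by
      have h3 : (A + σ) ^ i ≤ ((A + 2 * l) * exp ((σ - 2 * l) / (A + 2 * l))) ^ i :=
        pow_le_pow_left₀ (by linarith) h1 i
      rw [mul_pow, ← Real.exp_nat_mul] at h3
      refine h3.trans (mul_le_mul_of_nonneg_left ?_ hBi.le)
      apply Real.exp_le_exp.2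
      have h4 : (i : ℝ) ≤ A + 2 * l := by linarith
      have h5 : 0 ≤ (σ - 2 * l) / (A + 2 * l) := div_nonneg (by linarith) hB.le
      calc (i : ℝ) * ((σ - 2 * l) / (A + 2 * l)) ≤ (A + 2 * l) * ((σ - 2 * l) / (A + 2 * l)) :=
            mul_le_mul_of_nonneg_right h4 h5
        _ = σ - 2 * l := by field_simp
    have h6 : t * exp (σ - 2 * l) = exp (-(2 * l)) := by
      have : σ - 2 * l = σ + -(2 * l) := by ring
      rw [this, Real.exp_add, ← mul_assoc, hte, one_mul]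
    have h7 : exp (-(2 * l)) ≤ 1 / c ^ 2 := by
      have h8 : exp (-(2 * l)) ≤ exp (-(2 * log c)) := Real.exp_le_exp.2 (by linarith)
      have h9 : exp (-(2 * log c)) = 1 / c ^ 2 := by
        rw [Real.exp_neg, two_mul, Real.exp_add, Real.exp_log hc]
        field_simp
      linarith
    have h10 : t * (A + σ) ^ i ≤ t * ((A + 2 * l) ^ i * exp (σ - 2 * l)) :=
      mul_le_mul_of_nonneg_left h2 ht.le
    have h11 : t * ((A + 2 * l) ^ i * exp (σ - 2 * l)) = (A + 2 * l) ^ i * exp (-(2 * l)) := by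
      rw [← h6]; ring
    have h12 : (A + 2 * l) ^ i * exp (-(2 * l)) ≤ (A + 2 * l) ^ i * (1 / c ^ 2) :=
      mul_le_mul_of_nonneg_left h7 hBi.le
    have h13 : 0 < (A + 2 * l) ^ i * t := mul_pos hBi ht
    linarith

theorem SMX : SMX_stmt := by
  intro ι s n L A l i hn hL hl hA hL0
  have hA0 : 0 ≤ A := le_trans (Nat.cast_nonneg i) hA
  have hcard : (0 : ℝ) ≤ (#s : ℝ) := Nat.cast_nonneg _
  have hc : (0 : ℝ) < (#s : ℝ) + 3 := by linarith
  have hl0 : 0 < l := by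
    have h3 : 0 < log ((#s : ℝ) + 3) := Real.log_pos (by linarith)
    linarith
  have hB : 0 < A + 2 * l := by linarith
  have hBi : 0 < (A + 2 * l) ^ i := pow_pos hB i
  have h1 : ∑ u ∈ s, n u * (A + log (1 / n u)) ^ i ≤
      ∑ u ∈ s, ((A + 2 * l) ^ i * n u + (A + 2 * l) ^ i * (1 / ((#s : ℝ) + 3) ^ 2)) := by
    apply Finset.sum_le_sum
    intro u hu
    exact SMX_term (n u) A l ((#s : ℝ) + 3) i (hn u hu).1 hc hl hl0 hA (hn u hu).2
  have h2 : ∑ u ∈ s, ((A + 2 * l) ^ i * n u + (A + 2 * l) ^ i * (1 / ((#s : ℝ) + 3) ^ 2)) =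
      (A + 2 * l) ^ i * ∑ u ∈ s, n u +
        (#s : ℝ) * ((A + 2 * l) ^ i * (1 / ((#s : ℝ) + 3) ^ 2)) := by
    rw [Finset.sum_add_distrib, ← Finset.mul_sum, Finset.sum_const, nsmul_eq_mul]
  have h3 : (#s : ℝ) * (1 / ((#s : ℝ) + 3) ^ 2) ≤ 1 := by
    rw [mul_one_div, div_le_one (by positivity)]
    nlinarith
  have h4 : (A + 2 * l) ^ i * ∑ u ∈ s, n u ≤ (A + 2 * l) ^ i * L :=
    mul_le_mul_of_nonneg_left hL hBi.le
  have h5 : (#s : ℝ) * ((A + 2 * l) ^ i * (1 / ((#s : ℝ) + 3) ^ 2)) ≤ (A + 2 * l) ^ i * 1 := by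
    have h6 : (#s : ℝ) * ((A + 2 * l) ^ i * (1 / ((#s : ℝ) + 3) ^ 2)) =
        (A + 2 * l) ^ i * ((#s : ℝ) * (1 / ((#s : ℝ) + 3) ^ 2)) := by ring
    rw [h6]
    exact mul_le_mul_of_nonneg_left h3 hBi.le
  calc ∑ u ∈ s, n u * (A + log (1 / n u)) ^ i
      ≤ (A + 2 * l) ^ i * ∑ u ∈ s, n u +
        (#s : ℝ) * ((A + 2 * l) ^ i * (1 / ((#s : ℝ) + 3) ^ 2)) := by rw [← h2]; exact h1
    _ ≤ (A + 2 * l) ^ i * L + (A + 2 * l) ^ i * 1 := add_le_add h4 h5
    _ = (L + 1) * (A + 2 * l) ^ i := by ring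

end EN
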